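import Pool.Agent.Work.MP_1c1c8a_pr.Final

/-!
# The top eigenvector of a Wigner matrix decorrelates under deterministic resampling

Full positive answer to Q1 of `MP_1c1c8a_pr`: for symmetric matrices with i.i.d. centred entries of
variance one, uniformly sub-Gaussian, resampling the entries at an arbitrary deterministic set `S n`
of positions with `|S n| / n^(5/3) → ∞` decorrelates the top eigenvector.
-/

namespace Pool.Agent.Results.MP_1c1c8a_pr.TopEigenvectorDecorrelation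

open MeasureTheory ProbabilityTheory Filter Topology Matrix

/-- The sub-Gaussian norm `inf {t > 0 : E exp(Z²/t²) ≤ 2}` of a real random variable `Z` with law
`μ` (infinite if there is no such `t`). -/
noncomputable def psiTwo (μ : Measure ℝ) : ENNReal :=
  ⨅ (t : ℝ) (_ : 0 < t ∧ ∫⁻ x, ENNReal.ofReal (Real.exp (x ^ 2 / t ^ 2)) ∂μ ≤ 2), ENNReal.ofReal t

/-- The symmetric `n × n` matrix with entry `a s(i, j)` at the positions `(i, j)` and `(j, i)`. -/
def symm {n : ℕ} (a : Sym2 (Fin n) → ℝ) : Matrix (Fin n) (Fin n) ℝ := Matrix.of fun i j => a s(i, j)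

/-- The entries at the positions in `S` are replaced by those of `a'`. -/
noncomputable def replace {n : ℕ} (S : Finset (Sym2 (Fin n))) (a a' : Sym2 (Fin n) → ℝ) :
    Sym2 (Fin n) → ℝ := fun e => if e ∈ S then a' e else a e

/-- `v` is a unit eigenvector of `A` for its largest eigenvalue. -/
def IsTopEigenvector {n : ℕ} (A : Matrix (Fin n) (Fin n) ℝ) (v : Fin n → ℝ) : Prop :=
  v ⬝ᵥ v = 1 ∧ ∃ c : ℝ, A *ᵥ v = c • v ∧
    ∀ (d : ℝ) (u : Fin n → ℝ), u ≠ 0 → A *ᵥ u = d • u → d ≤ c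

theorem law_pair {n : ℕ} {Ω : Type*} [MeasurableSpace Ω] (P : Measure Ω) [IsProbabilityMeasure P]
    (μ : Measure ℝ) [IsProbabilityMeasure μ] (ξ ξ' : Sym2 (Fin n) → Ω → ℝ)
    (hξ : ∀ e, Measurable (ξ e)) (hξ' : ∀ e, Measurable (ξ' e))
    (hl : ∀ e, P.map (ξ e) = μ) (hl' : ∀ e, P.map (ξ' e) = μ)
    (hind : iIndepFun (fun s : Sym2 (Fin n) ⊕ Sym2 (Fin n) => Sum.elim ξ ξ' s) P) :
    P.map (fun ω => ((fun e => ξ e ω), (fun e => ξ' e ω))) =
      (Measure.pi fun _ : Sym2 (Fin n) => μ).prod (Measure.pi fun _ => μ) := by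
  have hm : ∀ s : Sym2 (Fin n) ⊕ Sym2 (Fin n), Measurable (Sum.elim ξ ξ' s) := by
    rintro (e | e)
    · exact hξ e
    · exact hξ' e
  have h1 := hind.map_fun_eq_pi_map (fun s => (hm s).aemeasurable)
  have h2 : (fun s : Sym2 (Fin n) ⊕ Sym2 (Fin n) => P.map (Sum.elim ξ ξ' s)) = fun _ => μ := by
    funext s
    rcases s with e | e
    · exact hl e
    · exact hl' e
  rw [h2] at h1
  have h3 := (measurePreserving_sumPiEquivProdPi
    (X := fun _ : Sym2 (Fin n) ⊕ Sym2 (Fin n) => ℝ) (fun _ => μ)).map_eq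
  rw [← h3, ← h1, Measure.map_map (MeasurableEquiv.measurable _)
    (measurable_pi_lambda _ hm)]
  rfl

/-- **Q1 of MP_1c1c8a_pr, answered positively.**  For every `n` let `ξ n e`, `ξ' n e`
(`e ∈ Sym2 (Fin n)`, the positions `(i, j)`, `i ≤ j`) be independent with the law `μ n` of mean
zero, variance one and sub-Gaussian norm at most `K` (no density is needed).  `X = symm (ξ n)`, and
`Y` is obtained by resampling the entries at the positions in the deterministic set `S n`, where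
`|S n| / n^(5/3) → ∞`.  Then the expectation of `⟨v₁(X), v₁(Y)⟩²` tends to zero, for every choice
`v` of unit top eigenvectors; there are even integrable majorants whose expectation tends to
zero, so that no measurability of the choice is needed. -/
theorem result (K : ℝ) (μ : ℕ → Measure ℝ) (hprob : ∀ n, IsProbabilityMeasure (μ n))
    (hmean : ∀ n, ∫ x, x ∂(μ n) = 0) (hvar : ∀ n, ∫ x, x ^ 2 ∂(μ n) = 1)
    (hpsi : ∀ n, psiTwo (μ n) ≤ ENNReal.ofReal K)
    (Ω : ℕ → Type*) [∀ n, MeasurableSpace (Ω n)] (P : ∀ n, Measure (Ω n))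
    [∀ n, IsProbabilityMeasure (P n)]
    (ξ ξ' : ∀ n : ℕ, Sym2 (Fin n) → Ω n → ℝ)
    (hξ : ∀ n e, Measurable (ξ n e)) (hξ' : ∀ n e, Measurable (ξ' n e))
    (hl : ∀ n e, (P n).map (ξ n e) = μ n) (hl' : ∀ n e, (P n).map (ξ' n e) = μ n)
    (hind : ∀ n, iIndepFun
      (fun s : Sym2 (Fin n) ⊕ Sym2 (Fin n) => Sum.elim (ξ n) (ξ' n) s) (P n))
    (S : ∀ n : ℕ, Finset (Sym2 (Fin n)))
    (hS : Tendsto (fun n : ℕ => ((S n).card : ℝ) / (n : ℝ) ^ ((5 : ℝ) / 3)) atTop atTop)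
    (v : ∀ n : ℕ, Matrix (Fin n) (Fin n) ℝ → Fin n → ℝ)
    (hv : ∀ n ≥ 1, ∀ A : Matrix (Fin n) (Fin n) ℝ, A.IsSymm → IsTopEigenvector A (v n A)) :
    Tendsto (fun n => ∫ ω, (v n (symm fun e => ξ n e ω) ⬝ᵥ
      v n (symm (replace (S n) (fun e => ξ n e ω) (fun e => ξ' n e ω)))) ^ 2 ∂(P n)) atTop (𝓝 0) ∧
    ∀ ε > 0, ∀ᶠ n in atTop, ∃ U : Ω n → ℝ, Measurable U ∧ Integrable U (P n) ∧
      (∀ ω, (v n (symm fun e => ξ n e ω) ⬝ᵥ
        v n (symm (replace (S n) (fun e => ξ n e ω) (fun e => ξ' n e ω)))) ^ 2 ≤ U ω) ∧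
      ∫ ω, U ω ∂(P n) ≤ ε := by
  have hmaj : ∀ ε > 0, ∀ᶠ n in atTop, ∃ U : Ω n → ℝ, Measurable U ∧ Integrable U (P n) ∧
      (∀ ω, (v n (symm fun e => ξ n e ω) ⬝ᵥ
        v n (symm (replace (S n) (fun e => ξ n e ω) (fun e => ξ' n e ω)))) ^ 2 ≤ U ω) ∧
      ∫ ω, U ω ∂(P n) ≤ ε := by
    intro ε hε
    filter_upwards [Pool.Agent.Eig.decorrelation K μ hprob hmean hvar hpsi S hS ε hε,
      eventually_ge_atTop 1] with n hn hn1
    obtain ⟨U, hUm, -, hUi, hUε, hUov⟩ := hn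
    have hpn := hprob n
    have hlaw := law_pair (P n) (μ n) (ξ n) (ξ' n) (hξ n) (hξ' n) (hl n) (hl' n) (hind n)
    have hmeas : Measurable (fun ω => ((fun e => ξ n e ω), (fun e => ξ' n e ω))) :=
      (measurable_pi_lambda _ (hξ n)).prodMk (measurable_pi_lambda _ (hξ' n))
    refine ⟨fun ω => U ((fun e => ξ n e ω), (fun e => ξ' n e ω)), hUm.comp hmeas, ?_, ?_, ?_⟩
    · rw [← hlaw] at hUi
      exact hUi.comp_measurable hmeas
    · intro ω
      have hs : ∀ a : Sym2 (Fin n) → ℝ, (symm a).IsSymm := by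
        intro a
        ext i j
        simp [symm, Sym2.eq_swap]
      obtain ⟨h1, c, h2, h3⟩ := hv n hn1 _ (hs fun e => ξ n e ω)
      obtain ⟨h1', c', h2', h3'⟩ := hv n hn1 _
        (hs (replace (S n) (fun e => ξ n e ω) (fun e => ξ' n e ω)))
      exact hUov ((fun e => ξ n e ω), (fun e => ξ' n e ω)) _ _ c c' ⟨h1, h2, h3⟩ ⟨h1', h2', h3'⟩
    · rw [← hlaw, integral_map hmeas.aemeasurable hUm.aestronglyMeasurable] at hUε
      exact hUε
  refine ⟨?_, hmaj⟩
  rw [Metric.tendsto_nhds]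
  intro ε hε
  filter_upwards [hmaj (ε / 2) (by positivity)] with n hn
  obtain ⟨U, -, hUi, hUov, hUε⟩ := hn
  have h0 : 0 ≤ ∫ ω, (v n (symm fun e => ξ n e ω) ⬝ᵥ
      v n (symm (replace (S n) (fun e => ξ n e ω) (fun e => ξ' n e ω)))) ^ 2 ∂(P n) :=
    integral_nonneg fun ω => sq_nonneg _
  have h1 : ∫ ω, (v n (symm fun e => ξ n e ω) ⬝ᵥ
      v n (symm (replace (S n) (fun e => ξ n e ω) (fun e => ξ' n e ω)))) ^ 2 ∂(P n) ≤
      ∫ ω, U ω ∂(P n) :=
    integral_mono_of_nonneg (ae_of_all _ fun ω => sq_nonneg _) hUi (ae_of_all _ hUov)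
  rw [Real.dist_eq, sub_zero, abs_of_nonneg h0]
  linarith

end Pool.Agent.Results.MP_1c1c8a_pr.TopEigenvectorDecorrelation
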